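import Pool.Agent.Helper9.SK.St
import Mathlib

/-!
# Project SK: module CSH (counting for the type two sums)
-/

set_option autoImplicit false

noncomputable section

namespace Pool.Agent.Helper6.SK

open Finset ArithmeticFunction MeasureTheory
open Pool.Agent.Helper9.SK
open Pool.Agent.Helper48.BK (ex th Pz Vz lz gs Sx Apx)
open Pool.Agent.Helper60.GP (IsB II Err JJ)
open Pool.Agent.Helper15.AB (Th)
open Pool.Agent.Helper58.SU (dsc StWinu)

private lemma sum_inj {ι κ : Type*} [DecidableEq κ] (s : Finset ι) (t : Finset κ) (e : ι → κ)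
    (f : ι → ℝ) (g : κ → ℝ) (he : ∀ i ∈ s, e i ∈ t) (hinj : Set.InjOn e s)
    (hg : ∀ k ∈ t, 0 ≤ g k) (h : ∀ i ∈ s, f i ≤ g (e i)) : ∑ i ∈ s, f i ≤ ∑ k ∈ t, g k := by
  calc ∑ i ∈ s, f i ≤ ∑ i ∈ s, g (e i) := sum_le_sum h
    _ = ∑ k ∈ s.image e, g k := (sum_image hinj).symm
    _ ≤ ∑ k ∈ t, g k := by
        refine sum_le_sum_of_subset_of_nonneg ?_ ?_
        · intro k hk
          obtain ⟨i, hi, rfl⟩ := mem_image.1 hk
          exact he i hi
        · intro k hk _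
          exact hg k hk

/-- grouping by the product -/
private lemma grp (A B : ℕ) (F : ℕ → ℝ) (hF : ∀ k, 0 ≤ F k) :
    ∑ a ∈ Icc 1 A, ∑ b ∈ Icc 1 B, F (a * b) ≤
      ∑ j ∈ Icc 1 (A * B), (j.divisors.card : ℝ) * F j := by
  rw [← sum_product' (Icc 1 A) (Icc 1 B) (fun a b => F (a * b))]
  have hmaps : ∀ p ∈ Icc 1 A ×ˢ Icc 1 B, p.1 * p.2 ∈ Icc 1 (A * B) := by
    intro p hp
    rw [mem_product, mem_Icc, mem_Icc] at hp
    rw [mem_Icc]
    exact ⟨Nat.mul_pos hp.1.1 hp.2.1, Nat.mul_le_mul hp.1.2 hp.2.2⟩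
  rw [← sum_fiberwise_of_maps_to hmaps]
  refine sum_le_sum fun j hj => ?_
  rw [mem_Icc] at hj
  have h1 : ∑ p ∈ (Icc 1 A ×ˢ Icc 1 B).filter (fun p => p.1 * p.2 = j), F (p.1 * p.2) =
      ∑ p ∈ (Icc 1 A ×ˢ Icc 1 B).filter (fun p => p.1 * p.2 = j), F j := by
    refine sum_congr rfl fun p hp => ?_
    rw [(mem_filter.1 hp).2]
  rw [h1, sum_const, nsmul_eq_mul]
  refine mul_le_mul_of_nonneg_right ?_ (hF j)
  have h2 : ((Icc 1 A ×ˢ Icc 1 B).filter (fun p => p.1 * p.2 = j)).card ≤ j.divisors.card := by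
    refine card_le_card_of_injOn Prod.fst ?_ ?_
    · intro p hp
      have hp' := mem_filter.1 hp
      simp only [Finset.mem_coe, Nat.mem_divisors]
      exact ⟨⟨p.2, hp'.2.symm⟩, by omega⟩
    · intro p hp p' hp' h
      have hp1 := mem_filter.1 hp
      have hp2 := mem_filter.1 hp'
      have hpos := (mem_Icc.1 (mem_product.1 hp1.1).1).1
      have h3 : p.1 * p.2 = p.1 * p'.2 := by
        rw [hp1.2]
        have h4 := hp2.2
        rw [← h4]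
        have h5 : p.1 = p'.1 := h
        rw [h5]
      exact Prod.ext h (Nat.eq_of_mul_eq_mul_left hpos h3)
  exact_mod_cast h2

/-- Cauchy-Schwarz with the divisor function -/
private lemma csd (N : ℕ) (F : ℕ → ℝ) (M : ℝ) (hF : ∀ k, 0 ≤ F k) (hM : ∀ k, F k ≤ M)
    (hDiv : Pool.Agent.Helper48.BK.StDiv) (hN : 1 ≤ N) :
    (∑ j ∈ Icc 1 N, (j.divisors.card : ℝ) * F j) ^ 2 ≤
      (N * (1 + Real.log N) ^ 3) * (M * ∑ j ∈ Icc 1 N, F j) := by
  have h0 : 0 ≤ M := le_trans (hF 0) (hM 0)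
  have h1 := sum_mul_sq_le_sq_mul_sq (Icc 1 N) (fun j => (j.divisors.card : ℝ)) F
  have h2 := (hDiv N hN).2
  have h3 : ∑ j ∈ Icc 1 N, F j ^ 2 ≤ M * ∑ j ∈ Icc 1 N, F j := by
    rw [mul_sum]
    refine sum_le_sum fun j _ => ?_
    rw [sq]
    exact mul_le_mul_of_nonneg_right (hM j) (hF j)
  have h4 : 0 ≤ ∑ j ∈ Icc 1 N, F j ^ 2 := sum_nonneg fun j _ => sq_nonneg _
  have h5 : 0 ≤ (N : ℝ) * (1 + Real.log N) ^ 3 :=
    le_trans (sum_nonneg fun j _ => sq_nonneg _) h2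
  calc _ ≤ _ := h1
    _ ≤ (N * (1 + Real.log N) ^ 3) * ∑ j ∈ Icc 1 N, F j ^ 2 :=
        mul_le_mul_of_nonneg_right h2 h4
    _ ≤ _ := mul_le_mul_of_nonneg_left h3 h5

private lemma gs_le (N t : ℝ) : gs N t ≤ N := by
  unfold gs
  split_ifs with h
  · exact le_rfl
  · push Not at h
    have h1 : 0 ≤ Pool.Agent.Helper48.BK.nd t := abs_nonneg _
    rcases h1.eq_or_lt with h2 | h2
    · rw [← h2] at h
      simp at h
      linarith
    · rw [div_le_iff₀ h2]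
      exact h.le

/-- the differences `f(u) - f(u')` -/
private lemma step0 (U : ℕ) (F : ℕ → ℝ) (hF : ∀ k, 0 ≤ F k) :
    ∑ u ∈ Icc 1 U, ∑ u' ∈ Ico 1 u, F ((u - u') * (u + u' + 1)) ≤
      ∑ t ∈ Icc 1 U, ∑ s ∈ Icc 1 (3 * U), F (t * s) := by
  rw [← sum_product' (Icc 1 U) (Icc 1 (3 * U)) (fun t s => F (t * s)), sum_sigma']
  refine sum_inj _ _ (fun p : (_ : ℕ) × ℕ => (p.1 - p.2, p.1 + p.2 + 1)) _ _ ?_ ?_ ?_ ?_
  · intro p hp
    rw [mem_sigma, mem_Icc, mem_Ico] at hp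
    rw [mem_product, mem_Icc, mem_Icc]
    dsimp only
    omega
  · intro p hp p' hp' h
    have h1 := mem_sigma.1 hp
    have h2 := mem_sigma.1 hp'
    rw [mem_Icc, mem_Ico] at h1 h2
    obtain ⟨a, b⟩ := p
    obtain ⟨a', b'⟩ := p'
    dsimp only at h h1 h2
    rw [Prod.mk.injEq] at h
    have h3 : a = a' := by omega
    have h4 : b = b' := by omega
    rw [h3, h4]
  · intro k _
    exact hF _
  · intro p _
    exact le_rfl

/-- the final estimate -/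
private lemma fin_est (u m q L1 L2 Lq l C T S X : ℝ) (hu : 3 ≤ u) (hm : 3 ≤ m) (hq : 1 ≤ q)
    (hl : 1 ≤ l) (hC : 0 < C) (hL1 : L1 ≤ 5 * l) (hL1' : 0 ≤ L1) (hL2 : L2 ≤ 6 * l)
    (hL2' : 0 ≤ L2) (hLq : Lq ≤ 5 * l) (hT : 0 ≤ T) (hS : 0 ≤ S) (hX : 0 ≤ X)
    (h1 : T ^ 2 ≤ u * (3 * (u * m) * L1 ^ 3 * (m * S)))
    (h2 : S ^ 2 ≤ (3 * (u ^ 2 * m) * L2 ^ 3) * (m * X))
    (h3 : X ≤ C * (2 * (3 * (u ^ 2 * m)) / q + 1) * (m + q * Lq)) :
    T ≤ (27 * 31 * 5 ^ 6 * 6 ^ 3 * C + 1) * u ^ 2 * m ^ 2 * l ^ 3 *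
      (1 / q + 1 / m + q / (u * m) ^ 2) ^ (1 / 4 : ℝ) := by
  have hu0 : 0 < u := by linarith
  have hm0 : 0 < m := by linarith
  have hq0 : 0 < q := by linarith
  have hl0 : 0 < l := by linarith
  set D : ℝ := 1 / q + 1 / m + q / (u * m) ^ 2 with hD
  have hD0 : 0 < D := by positivity
  have hA1 : L1 ^ 3 ≤ (5 * l) ^ 3 := pow_le_pow_left₀ hL1' hL1 3
  have hA2 : L2 ^ 3 ≤ (6 * l) ^ 3 := pow_le_pow_left₀ hL2' hL2 3
  have hX2 : X ≤ C * (31 * l * (u ^ 2 * m ^ 2 * D)) := by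
    refine h3.trans ?_
    rw [mul_assoc]
    refine mul_le_mul_of_nonneg_left ?_ hC.le
    have e1 : u ^ 2 * m ^ 2 * D = u ^ 2 * m ^ 2 / q + u ^ 2 * m + q := by
      rw [hD]
      field_simp
    rw [e1]
    have e2 : (2 * (3 * (u ^ 2 * m)) / q + 1) * (m + q * Lq) ≤
        (2 * (3 * (u ^ 2 * m)) / q + 1) * (m + q * (5 * l)) := by
      refine mul_le_mul_of_nonneg_left ?_ (by positivity)
      have := mul_le_mul_of_nonneg_left hLq hq0.le
      linarith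
    refine e2.trans ?_
    have e3 : (2 * (3 * (u ^ 2 * m)) / q + 1) * (m + q * (5 * l)) =
        6 * (u ^ 2 * m ^ 2 / q) + m + 30 * (u ^ 2 * m * l) + 5 * (q * l) := by
      field_simp
      ring
    rw [e3]
    have e4 : 0 ≤ u ^ 2 * m ^ 2 / q := by positivity
    have e5 : u ^ 2 * m ^ 2 / q ≤ l * (u ^ 2 * m ^ 2 / q) := le_mul_of_one_le_left e4 hl
    have e6 : m ≤ u ^ 2 * m * l := by
      have : 1 ≤ u ^ 2 * l := by nlinarith
      nlinarith
    have e7 : 0 ≤ q * l := by positivity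
    have e8 : 0 ≤ l * (u ^ 2 * m ^ 2 / q) := by positivity
    nlinarith
  have hS2 : S ^ 2 ≤ (3 * (u ^ 2 * m) * (6 * l) ^ 3) * (m * (C * (31 * l * (u ^ 2 * m ^ 2 * D)))) := by
    refine h2.trans ?_
    refine mul_le_mul ?_ ?_ (by positivity) (by positivity)
    · exact mul_le_mul_of_nonneg_left hA2 (by positivity)
    · exact mul_le_mul_of_nonneg_left hX2 hm0.le
  have hT2 : T ^ 2 ≤ u * (3 * (u * m) * (5 * l) ^ 3 * (m * S)) := by
    refine h1.trans ?_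
    refine mul_le_mul_of_nonneg_left ?_ hu0.le
    refine mul_le_mul_of_nonneg_right ?_ (by positivity)
    exact mul_le_mul_of_nonneg_left hA1 (by positivity)
  have hT4 : T ^ 4 ≤ (3 * u ^ 2 * m ^ 2 * (5 * l) ^ 3) ^ 2 * S ^ 2 := by
    have e1 : T ^ 4 = (T ^ 2) ^ 2 := by ring
    rw [e1, ← mul_pow]
    refine pow_le_pow_left₀ (sq_nonneg T) ?_ 2
    refine hT2.trans (le_of_eq ?_)
    ring
  have hK : 1 ≤ 27 * 31 * 5 ^ 6 * 6 ^ 3 * C + 1 := by
    have : 0 ≤ 27 * 31 * 5 ^ 6 * 6 ^ 3 * C := by positivity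
    linarith
  set K : ℝ := 27 * 31 * 5 ^ 6 * 6 ^ 3 * C + 1 with hKd
  have hK0 : 0 < K := by linarith
  have hD4 : (D ^ (1 / 4 : ℝ)) ^ 4 = D := by
    rw [← Real.rpow_natCast, ← Real.rpow_mul hD0.le]
    norm_num
  have hDp : 0 ≤ D ^ (1 / 4 : ℝ) := Real.rpow_nonneg hD0.le _
  have hR0 : 0 ≤ K * u ^ 2 * m ^ 2 * l ^ 3 * D ^ (1 / 4 : ℝ) := by positivity
  refine le_of_pow_le_pow_left₀ (n := 4) (by norm_num) hR0 ?_
  calc T ^ 4 ≤ (3 * u ^ 2 * m ^ 2 * (5 * l) ^ 3) ^ 2 * S ^ 2 := hT4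
    _ ≤ (3 * u ^ 2 * m ^ 2 * (5 * l) ^ 3) ^ 2 *
        ((3 * (u ^ 2 * m) * (6 * l) ^ 3) * (m * (C * (31 * l * (u ^ 2 * m ^ 2 * D))))) :=
        mul_le_mul_of_nonneg_left hS2 (by positivity)
    _ = (27 * 31 * 5 ^ 6 * 6 ^ 3 * C) * (u ^ 8 * m ^ 8 * D) * l ^ 10 := by ring
    _ ≤ K * (u ^ 8 * m ^ 8 * D) * l ^ 12 := by
        have e1 : 27 * 31 * 5 ^ 6 * 6 ^ 3 * C ≤ K := by
          rw [hKd]
          linarith
        have e2 : l ^ 10 ≤ l ^ 12 := pow_le_pow_right₀ hl (by norm_num)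
        have e3 : 0 ≤ u ^ 8 * m ^ 8 * D := by positivity
        refine mul_le_mul ?_ e2 (by positivity) (by positivity)
        exact mul_le_mul_of_nonneg_right e1 e3
    _ ≤ K ^ 4 * (u ^ 8 * m ^ 8 * D) * l ^ 12 := by
        have e1 : K ≤ K ^ 4 := by
          calc K = K ^ 1 := (pow_one K).symm
            _ ≤ K ^ 4 := pow_le_pow_right₀ hK (by norm_num)
        have e3 : 0 ≤ u ^ 8 * m ^ 8 * D := by positivity
        refine mul_le_mul_of_nonneg_right ?_ (by positivity)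
        exact mul_le_mul_of_nonneg_right e1 e3
    _ = (K * u ^ 2 * m ^ 2 * l ^ 3 * D ^ (1 / 4 : ℝ)) ^ 4 := by
        rw [mul_pow, mul_pow, mul_pow, mul_pow, hD4]
        ring

theorem hCSH (hGeo1 : Pool.Agent.Helper48.BK.StGeo1) (hGeo2 : Pool.Agent.Helper48.BK.StGeo2)
    (hDiv : Pool.Agent.Helper48.BK.StDiv) : StCsh := by
  obtain ⟨C, hC, hgeo⟩ := hGeo2
  obtain ⟨-, -, hgs0, -⟩ := hGeo1
  refine ⟨27 * 31 * 5 ^ 6 * 6 ^ 3 * C + 1, by positivity, ?_⟩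
  intro U M q b α hU hUM hqle hApx
  have hq1 : 1 ≤ q := hApx.1
  have hM3 : 3 ≤ M := hU.trans hUM
  set G : ℕ → ℝ := fun k => gs M (k * α) with hG
  have hG0 : ∀ k, 0 ≤ G k := fun k => hgs0 _ _ (Nat.cast_nonneg M)
  have hGM : ∀ k, G k ≤ M := fun k => gs_le _ _
  -- step A
  have hA : ∑ u ∈ Icc 1 U, ∑ u' ∈ Ico 1 u, ∑ h ∈ Icc 1 M,
      gs M (2 * h * (((ff u : ℝ) - ff u') * α)) ≤
      ∑ t ∈ Icc 1 U, ∑ s ∈ Icc 1 (3 * U), ∑ h ∈ Icc 1 M, G (2 * (t * s * h)) := by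
    have e1 := step0 U (fun k => ∑ h ∈ Icc 1 M, G (2 * (k * h)))
      (fun k => sum_nonneg fun h _ => hG0 _)
    refine le_trans (le_of_eq ?_) e1
    refine sum_congr rfl fun u hu => sum_congr rfl fun u' hu' => sum_congr rfl fun h hh => ?_
    rw [mem_Ico] at hu'
    simp only [hG]
    congr 1
    have e2 : ((2 * ((u - u') * (u + u' + 1) * h) : ℕ) : ℝ) =
        2 * h * ((ff u : ℝ) - ff u') := by
      unfold ff
      push_cast [Nat.cast_sub hu'.2.le]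
      ring
    rw [e2]
    ring
  -- step B
  set N1 : ℕ := 3 * U * M with hN1
  set N2 : ℕ := U * N1 with hN2
  have hN1p : 1 ≤ N1 := Nat.mul_pos (by omega) (by omega)
  have hN2p : 1 ≤ N2 := Nat.mul_pos (by omega) hN1p
  set a : ℕ → ℝ := fun t => ∑ j ∈ Icc 1 N1, (j.divisors.card : ℝ) * G (2 * (t * j)) with ha
  have ha0 : ∀ t, 0 ≤ a t := fun t =>
    sum_nonneg fun j _ => mul_nonneg (Nat.cast_nonneg _) (hG0 _)
  have hB : ∀ t, ∑ s ∈ Icc 1 (3 * U), ∑ h ∈ Icc 1 M, G (2 * (t * s * h)) ≤ a t := by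
    intro t
    have e1 := grp (3 * U) M (fun j => G (2 * (t * j))) (fun k => hG0 _)
    refine le_trans (le_of_eq ?_) e1
    refine sum_congr rfl fun s _ => sum_congr rfl fun h _ => ?_
    rw [mul_assoc t s h]
  set T : ℝ := ∑ t ∈ Icc 1 U, a t with hT
  have hLT : ∑ u ∈ Icc 1 U, ∑ u' ∈ Ico 1 u, ∑ h ∈ Icc 1 M,
      gs M (2 * h * (((ff u : ℝ) - ff u') * α)) ≤ T :=
    hA.trans (sum_le_sum fun t _ => hB t)
  refine hLT.trans ?_
  -- step C, D
  set S : ℝ := ∑ i ∈ Icc 1 N2, (i.divisors.card : ℝ) * G (2 * i) with hS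
  have hbt : ∑ t ∈ Icc 1 U, ∑ j ∈ Icc 1 N1, G (2 * (t * j)) ≤ S :=
    grp U N1 (fun i => G (2 * i)) (fun k => hG0 _)
  have hT2 : T ^ 2 ≤ U * ((N1 * (1 + Real.log N1) ^ 3) * (M * S)) := by
    have e1 : T ^ 2 ≤ (Icc 1 U).card * ∑ t ∈ Icc 1 U, a t ^ 2 := sq_sum_le_card_mul_sum_sq
    rw [Nat.card_Icc, Nat.add_sub_cancel] at e1
    refine e1.trans (mul_le_mul_of_nonneg_left ?_ (Nat.cast_nonneg U))
    have e2 : ∑ t ∈ Icc 1 U, a t ^ 2 ≤
        ∑ t ∈ Icc 1 U, (N1 * (1 + Real.log N1) ^ 3) * (M * ∑ j ∈ Icc 1 N1, G (2 * (t * j))) :=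
      sum_le_sum fun t _ => csd N1 (fun j => G (2 * (t * j))) M (fun k => hG0 _)
        (fun k => hGM _) hDiv hN1p
    refine e2.trans ?_
    rw [← mul_sum, ← mul_sum]
    refine mul_le_mul_of_nonneg_left ?_ ?_
    · exact mul_le_mul_of_nonneg_left hbt (Nat.cast_nonneg M)
    · have := Real.log_natCast_nonneg N1
      positivity
  -- step E
  set X : ℝ := ∑ k ∈ Icc 1 (2 * N2), G k with hX
  have hX0 : 0 ≤ X := sum_nonneg fun k _ => hG0 k
  have hXi : ∑ i ∈ Icc 1 N2, G (2 * i) ≤ X := by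
    refine sum_inj _ _ (fun i => 2 * i) _ _ ?_ ?_ (fun k _ => hG0 k) (fun i _ => le_rfl)
    · intro i hi
      rw [mem_Icc] at hi ⊢
      omega
    · intro i _ i' _ h
      have h' : 2 * i = 2 * i' := h
      omega
  have hS2 : S ^ 2 ≤ (N2 * (1 + Real.log N2) ^ 3) * (M * X) := by
    refine (csd N2 (fun i => G (2 * i)) M (fun k => hG0 _) (fun k => hGM _) hDiv hN2p).trans ?_
    refine mul_le_mul_of_nonneg_left ?_ ?_
    · exact mul_le_mul_of_nonneg_left hXi (Nat.cast_nonneg M)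
    · have := Real.log_natCast_nonneg N2
      positivity
  have hM1 : (1 : ℝ) ≤ M := by exact_mod_cast (by omega : 1 ≤ M)
  have hX3 := hgeo (2 * N2) q M b α hM1 hApx
  -- logarithms
  have hUr : (3 : ℝ) ≤ U := by exact_mod_cast hU
  have hMr : (3 : ℝ) ≤ M := by exact_mod_cast hM3
  have hUMr : (U : ℝ) ≤ M := by exact_mod_cast hUM
  have hqr : (1 : ℝ) ≤ q := by exact_mod_cast hq1
  have hl3 : Real.log 3 ≤ Real.log M := Real.log_le_log (by norm_num) hMr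
  have hlU : Real.log U ≤ Real.log M := Real.log_le_log (by linarith) hUMr
  have hl1 : 1 ≤ Real.log M := by
    refine le_trans ?_ hl3
    rw [Real.le_log_iff_exp_le (by norm_num)]
    have := Real.exp_one_lt_d9
    linarith
  have hN1r : (N1 : ℝ) = 3 * (U * M) := by
    rw [hN1]
    push_cast
    ring
  have hN2r : (N2 : ℝ) = 3 * (U ^ 2 * M) := by
    rw [hN2, hN1]
    push_cast
    ring
  have hLN1 : 1 + Real.log N1 ≤ 5 * Real.log M := by
    rw [hN1r, Real.log_mul (by norm_num) (by positivity), Real.log_mul (by positivity)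
      (by positivity)]
    linarith
  have hLN2 : 1 + Real.log N2 ≤ 6 * Real.log M := by
    rw [hN2r, Real.log_mul (by norm_num) (by positivity), Real.log_mul (by positivity)
      (by positivity), Real.log_pow]
    push_cast
    linarith
  have hLq : 1 + Real.log q ≤ 5 * Real.log M := by
    have e1 : (q : ℝ) ≤ ((U : ℝ) * M) ^ 2 := by exact_mod_cast hqle
    have e2 : Real.log q ≤ Real.log (((U : ℝ) * M) ^ 2) := Real.log_le_log (by linarith) e1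
    rw [Real.log_pow, Real.log_mul (by positivity) (by positivity)] at e2
    push_cast at e2
    linarith
  have hT0 : 0 ≤ T := sum_nonneg fun t _ => ha0 t
  have hS0 : 0 ≤ S := sum_nonneg fun i _ => mul_nonneg (Nat.cast_nonneg _) (hG0 _)
  have hf := fin_est (U : ℝ) M q (1 + Real.log N1) (1 + Real.log N2) (1 + Real.log q)
    (Real.log M) C T S X hUr hMr hqr hl1 hC hLN1
    (by have := Real.log_natCast_nonneg N1; linarith) hLN2
    (by have := Real.log_natCast_nonneg N2; linarith) hLq hT0 hS0 hX0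
    (by rw [← hN1r]; exact hT2) (by rw [← hN2r]; exact hS2)
    (by
      have e1 : ((2 * N2 : ℕ) : ℝ) = 2 * (3 * ((U : ℝ) ^ 2 * M)) := by
        rw [← hN2r]
        push_cast
        ring
      rw [← e1]
      exact hX3)
  exact hf

end Pool.Agent.Helper6.SK
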